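import Mathlib
import Pool.Agent.Q186.Drazin.Defs
import Pool.Agent.Q186.Drazin.Two
import Pool.Agent.Q186.Drazin.One

/-!
# MP_632fda_an: weakening Drazin hypotheses for completions of triangular operator matrices

Q1 has a negative answer and Q2 has a positive answer.

Q1. On `ℓ²(ℕ × ℕ)` let `A` be the forward shift in the first variable and let `B` be the backward
shift in the first variable whose last weights are `1 / (j + 1)`, `j ∈ ℕ`. Then `R(B)` is not
closed, `dsc B = 1`, and for the admissible operator `C` (the projection onto the row `0`) the
operator `M_C` is injective and not surjective, so its descent is infinite.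

Q2. If `R(B^p)` is closed then `T ⊆ R(B^m)` for all `m`; this gives `H × K = R(M_C) + N(M_C^p)`.
-/

set_option autoImplicit false

open Pool.Agent.Q186.Drazin

namespace Pool.Agent.Results.MP_632fda_an.Completions

/-- **Q1 is false and Q2 is true.** There is an infinite-dimensional separable complex Hilbert
space `H` such that Q1 fails for `H` and `K = H`, and Q2 holds for all complex Hilbert spaces `H`
and `K` (even without condition (iii)). -/
theorem result.{u, v} :
    (∃ (H : Type) (_ : NormedAddCommGroup H) (_ : InnerProductSpace ℂ H),
      CompleteSpace H ∧ TopologicalSpace.SeparableSpace H ∧ ¬ FiniteDimensional ℂ H ∧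
        FailsQ1 H H) ∧
    (∀ (H : Type u) (K : Type v) [NormedAddCommGroup H] [InnerProductSpace ℂ H] [CompleteSpace H]
      [NormedAddCommGroup K] [InnerProductSpace ℂ K] [CompleteSpace K], HoldsQ2 H K) := by
  refine ⟨⟨L, inferInstance, inferInstance, inferInstance, separable_L, infinite_L, fails⟩, ?_⟩
  intro H K _ _ _ _ _ _ A B C p _ hB hp hE hC
  obtain ⟨-, ⟨a, ha, hap⟩, d, hd, hdp⟩ := hp
  obtain ⟨d', hd', hcl⟩ := hB
  obtain rfl : d' = d := hd'.unique hd
  exact drazin_of_right ha hap hd hdp hcl hE hC

end Pool.Agent.Results.MP_632fda_an.Completions
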